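import Pool.Agent.W2helper77.CS.Stm

/-!
# Piece ROT of project CS: rotation invariance of `J`
-/

set_option autoImplicit false

namespace Pool.Agent.W2helper75.CS

open Pool.Agent.W2helper77.CS

theorem blk_append (l l' : List ℕ) : blk (l ++ l') = blk l ++ blk l' := by
  simp [blk]

theorem blk_single (k : ℕ) : blk [k] = List.replicate k k := by
  simp [blk]

theorem std_succ (m : ℕ) :
    std (m + 1) = std m ++ List.replicate (2 * m + 1) (2 * m + 1) := by
  unfold std
  rw [List.range_succ, List.map_append, blk_append, List.map_singleton, blk_single]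

theorem std_zero : std 0 = [] := rfl

theorem sum_std_succ (m : ℕ) (f : ℕ → ℝ) :
    ((std (m + 1)).map f).sum = ((std m).map f).sum + (2 * m + 1) * f (2 * m + 1) := by
  rw [std_succ]
  simp

theorem sum_inv_std (m : ℕ) : ((std m).map fun b : ℕ => 1 / (b : ℝ)).sum = m := by
  induction m with
  | zero => simp [std_zero]
  | succ m ih =>
    rw [sum_std_succ, ih]
    have : (2 * (m : ℝ) + 1) ≠ 0 := by positivity
    push_cast
    field_simp

theorem sum_gt_std (a m : ℕ) :
    ((std m).map fun b : ℕ => if 2 * a + 1 < b then 1 / (b : ℝ) else 0).sum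
      = ((m - 1 - a : ℕ) : ℝ) := by
  induction m with
  | zero => simp [std_zero]
  | succ m ih =>
    rw [sum_std_succ, ih]
    have : (2 * (m : ℝ) + 1) ≠ 0 := by positivity
    by_cases h : a < m
    · have h1 : m + 1 - 1 - a = (m - 1 - a) + 1 := by omega
      rw [if_pos (by omega), h1]
      push_cast
      field_simp
    · have h1 : m + 1 - 1 - a = 0 := by omega
      have h2 : m - 1 - a = 0 := by omega
      rw [if_neg (by omega), h1, h2]
      simp

theorem sum_lt_std (a m : ℕ) :
    ((std m).map fun b : ℕ => if b < 2 * a + 1 then 1 / (b : ℝ) else 0).sum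
      = ((min m a : ℕ) : ℝ) := by
  induction m with
  | zero => simp [std_zero]
  | succ m ih =>
    rw [sum_std_succ, ih]
    have : (2 * (m : ℝ) + 1) ≠ 0 := by positivity
    by_cases h : m < a
    · have h1 : min (m + 1) a = min m a + 1 := by omega
      rw [if_pos (by omega), h1]
      push_cast
      field_simp
    · have h1 : min (m + 1) a = min m a := by omega
      rw [if_neg (by omega), h1]
      simp

theorem mem_std {m x : ℕ} (h : x ∈ std m) : ∃ a < m, x = 2 * a + 1 := by
  induction m with
  | zero => simp [std_zero] at h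
  | succ m ih =>
    rw [std_succ, List.mem_append] at h
    rcases h with h | h
    · obtain ⟨a, ha, rfl⟩ := ih h
      exact ⟨a, by omega, rfl⟩
    · rw [List.mem_replicate] at h
      exact ⟨m, by omega, h.2⟩

theorem ivx_concat (a : ℕ) (l : List ℕ) :
    ivx (l ++ [a]) = ivx l +
      (l.map fun b : ℕ => if a < b then 1 / ((b : ℝ) * a) else 0).sum := by
  induction l with
  | nil => simp [ivx]
  | cons c l ih =>
    simp only [List.cons_append, ivx, ih, List.map_append, List.sum_append, List.map_cons,
      List.map_nil, List.sum_cons, List.sum_nil]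
    ring

theorem ivy_concat (a : ℕ) (l : List ℕ) :
    ivy (l ++ [a]) = ivy l +
      (l.map fun b : ℕ => if b < a then 1 / ((b : ℝ) * a) else 0).sum := by
  induction l with
  | nil => simp [ivy]
  | cons c l ih =>
    simp only [List.cons_append, ivy, ih, List.map_append, List.sum_append, List.map_cons,
      List.map_nil, List.sum_cons, List.sum_nil]
    ring

theorem crs_concat (x y : ℕ) : ∀ (xs ys : List ℕ), xs.length = ys.length → ∀ A : ℝ,
    crs A (xs ++ [x]) (ys ++ [y]) = crs A xs ys +
      (A + (xs.map fun b : ℕ => 1 / (b : ℝ)).sum + 1 / x) / y := by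
  intro xs
  induction xs with
  | nil =>
    intro ys h A
    cases ys with
    | nil => simp [crs]
    | cons => simp at h
  | cons c xs ih =>
    intro ys h A
    cases ys with
    | nil => simp at h
    | cons d ys =>
      have h' : xs.length = ys.length := by simpa using h
      simp only [List.cons_append, crs, ih ys h', List.map_cons, List.sum_cons]
      ring

theorem crs_add (c : ℝ) : ∀ (xs ys : List ℕ), xs.length = ys.length → ∀ A : ℝ,
    crs (A + c) xs ys = crs A xs ys + c * (ys.map fun b : ℕ => 1 / (b : ℝ)).sum := by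
  intro xs
  induction xs with
  | nil =>
    intro ys h A
    cases ys with
    | nil => simp [crs]
    | cons => simp at h
  | cons x xs ih =>
    intro ys h A
    cases ys with
    | nil => simp at h
    | cons d ys =>
      have h' : xs.length = ys.length := by simpa using h
      have e : A + c + 1 / (x : ℝ) = (A + 1 / (x : ℝ)) + c := by ring
      simp only [crs, List.map_cons, List.sum_cons]
      rw [e, ih ys h']
      ring

/-- one step -/
theorem step {m x y : ℕ} {xs ys : List ℕ} (h : IsC m (x :: xs) (y :: ys)) :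
    J (xs ++ [x]) (ys ++ [y]) = J (x :: xs) (y :: ys) := by
  obtain ⟨hx, hy⟩ := h
  have hl : xs.length = ys.length := by
    have h1 := hx.length_eq
    have h2 := hy.length_eq
    simp only [List.length_cons] at h1 h2
    omega
  obtain ⟨a, ha, rfl⟩ := mem_std (hx.subset List.mem_cons_self)
  obtain ⟨b, hb, rfl⟩ := mem_std (hy.subset List.mem_cons_self)
  have X1 := (hx.map fun b : ℕ => 1 / (b : ℝ)).sum_eq
  have Y1 := (hy.map fun b : ℕ => 1 / (b : ℝ)).sum_eq
  have X2 := (hx.map fun c : ℕ => if 2 * a + 1 < c then 1 / (c : ℝ) else 0).sum_eq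
  have Y2 := (hy.map fun c : ℕ => if 2 * b + 1 < c then 1 / (c : ℝ) else 0).sum_eq
  have X3 := (hx.map fun c : ℕ => if c < 2 * a + 1 then 1 / (c : ℝ) else 0).sum_eq
  have Y3 := (hy.map fun c : ℕ => if c < 2 * b + 1 then 1 / (c : ℝ) else 0).sum_eq
  rw [sum_inv_std, List.map_cons, List.sum_cons] at X1 Y1
  rw [sum_gt_std, List.map_cons, List.sum_cons, if_neg (lt_irrefl _), zero_add] at X2 Y2
  rw [sum_lt_std, List.map_cons, List.sum_cons, if_neg (lt_irrefl _), zero_add] at X3 Y3
  have ea : ((m - 1 - a : ℕ) : ℝ) = m - 1 - a := by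
    have : m = (m - 1 - a) + a + 1 := by omega
    have h2 : (m : ℝ) = ((m - 1 - a : ℕ) : ℝ) + a + 1 := by exact_mod_cast this
    linarith
  have eb : ((m - 1 - b : ℕ) : ℝ) = m - 1 - b := by
    have : m = (m - 1 - b) + b + 1 := by omega
    have h2 : (m : ℝ) = ((m - 1 - b : ℕ) : ℝ) + b + 1 := by exact_mod_cast this
    linarith
  rw [ea] at X2
  rw [eb] at Y2
  rw [min_eq_right ha.le] at X3
  rw [min_eq_right hb.le] at Y3
  have fx1 : (xs.map fun c : ℕ => if 2 * a + 1 < c then
      1 / ((c : ℝ) * ((2 * a + 1 : ℕ) : ℝ)) else 0).sum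
      = (m - 1 - a) * (1 / ((2 * a + 1 : ℕ) : ℝ)) := by
    rw [← X2, ← List.sum_map_mul_right]
    congr 1
    apply List.map_congr_left
    intro c _
    split_ifs
    · rw [one_div_mul_one_div]
    · simp
  have fx2 : (xs.map fun c : ℕ => if c < 2 * a + 1 then
      1 / (((2 * a + 1 : ℕ) : ℝ) * (c : ℝ)) else 0).sum
      = a * (1 / ((2 * a + 1 : ℕ) : ℝ)) := by
    rw [← X3, ← List.sum_map_mul_right]
    congr 1
    apply List.map_congr_left
    intro c _
    split_ifs
    · rw [one_div_mul_one_div, mul_comm]
    · simp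
  have fy1 : (ys.map fun c : ℕ => if 2 * b + 1 < c then
      1 / (((2 * b + 1 : ℕ) : ℝ) * (c : ℝ)) else 0).sum
      = (m - 1 - b) * (1 / ((2 * b + 1 : ℕ) : ℝ)) := by
    rw [← Y2, ← List.sum_map_mul_right]
    congr 1
    apply List.map_congr_left
    intro c _
    split_ifs
    · rw [one_div_mul_one_div, mul_comm]
    · simp
  have fy2 : (ys.map fun c : ℕ => if c < 2 * b + 1 then
      1 / ((c : ℝ) * ((2 * b + 1 : ℕ) : ℝ)) else 0).sum
      = b * (1 / ((2 * b + 1 : ℕ) : ℝ)) := by
    rw [← Y3, ← List.sum_map_mul_right]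
    congr 1
    apply List.map_congr_left
    intro c _
    split_ifs
    · rw [one_div_mul_one_div]
    · simp
  have hX : (xs.map fun b : ℕ => 1 / (b : ℝ)).sum = m - 1 / ((2 * a + 1 : ℕ) : ℝ) := by
    linarith
  have hY : (ys.map fun b : ℕ => 1 / (b : ℝ)).sum = m - 1 / ((2 * b + 1 : ℕ) : ℝ) := by
    linarith
  unfold J
  rw [ivx_concat, ivy_concat, crs_concat _ _ _ _ hl]
  simp only [ivx, ivy, crs]
  rw [crs_add _ _ _ hl, fx1, fx2, fy1, fy2, hX, hY]
  have p1 : (2 * (a : ℝ) + 1) ≠ 0 := by positivity
  have p2 : (2 * (b : ℝ) + 1) ≠ 0 := by positivity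
  push_cast
  field_simp
  ring

theorem rot : S_ROT := by
  intro m xs ys h r
  induction r generalizing xs ys with
  | zero => simp
  | succ r ih =>
    cases xs with
    | nil =>
      cases ys with
      | nil => simp
      | cons y ys =>
        have h1 := h.1.length_eq
        have h2 := h.2.length_eq
        simp only [List.length_cons, List.length_nil] at h1 h2
        omega
    | cons x xs =>
      cases ys with
      | nil =>
        have h1 := h.1.length_eq
        have h2 := h.2.length_eq
        simp only [List.length_cons, List.length_nil] at h1 h2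
        omega
      | cons y ys =>
        rw [List.rotate_cons_succ, List.rotate_cons_succ, ih, step h]
        exact ⟨(List.perm_append_singleton x xs).trans h.1,
          (List.perm_append_singleton y ys).trans h.2⟩

end Pool.Agent.W2helper75.CS
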